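import Pool.Agent.Y228.HX.Stm

/-!
# HX-CUT: cutting a simplicial cone by hyperplanes (helper259, for project HX of helper228)
-/

set_option autoImplicit false

namespace Pool.Agent.Y259.HX

open Pool.Agent.Y228.HX

variable {W : Type} [AddCommGroup W] [Module ℚ W] {p : ℕ}

theorem pr_g (s : Smp W p) (i : Fin p) : s.pr (s.g i) = s.g i := by
  unfold Smp.pr
  rw [Finset.sum_eq_single i]
  · rw [s.dual, if_pos rfl, one_smul]
  · intro k _ hk
    rw [s.dual, if_neg hk, zero_smul]
  · intro h
    exact absurd (Finset.mem_univ i) h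

/-- the generators of `s'` are nonnegative combinations of those of `s` -/
def Comb (s s' : Smp W p) : Prop :=
  ∀ i, ∃ c : Fin p → ℚ, (∀ k, 0 ≤ c k) ∧ s'.g i = ∑ k, c k • s.g k

theorem Comb.refl (s : Smp W p) : Comb s s := by
  intro i
  refine ⟨fun k => if k = i then 1 else 0, fun k => by dsimp only; split_ifs <;> norm_num, ?_⟩
  rw [Finset.sum_eq_single i]
  · dsimp only
    rw [if_pos rfl, one_smul]
  · intro k _ hk
    dsimp only
    rw [if_neg hk, zero_smul]
  · intro h
    exact absurd (Finset.mem_univ i) h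

theorem Comb.trans {s s' s'' : Smp W p} (h : Comb s s') (h' : Comb s' s'') : Comb s s'' := by
  intro i
  obtain ⟨c, hc, hci⟩ := h' i
  choose d hd hdi using h
  refine ⟨fun m => ∑ k, c k * d k m, fun m => Finset.sum_nonneg fun k _ =>
    mul_nonneg (hc k) (hd k m), ?_⟩
  rw [hci]
  simp only [Finset.sum_smul]
  rw [Finset.sum_comm]
  refine Finset.sum_congr rfl fun k _ => ?_
  rw [hdi k, Finset.smul_sum]
  refine Finset.sum_congr rfl fun m _ => ?_
  rw [smul_smul]

/-- `l` has one sign on the cone -/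
def SD (l : W →ₗ[ℚ] ℚ) (s : Smp W p) : Prop := (∀ i, 0 ≤ l (s.g i)) ∨ ∀ i, l (s.g i) ≤ 0

theorem SD.comb {l : W →ₗ[ℚ] ℚ} {s s' : Smp W p} (h : SD l s) (hc : Comb s s') : SD l s' := by
  rcases h with h | h
  · left
    intro i
    obtain ⟨c, hc0, hci⟩ := hc i
    rw [hci, map_sum]
    exact Finset.sum_nonneg fun k _ => by
      rw [map_smul, smul_eq_mul]
      exact mul_nonneg (hc0 k) (h k)
  · right
    intro i
    obtain ⟨c, hc0, hci⟩ := hc i
    rw [hci, map_sum]
    exact Finset.sum_nonpos fun k _ => by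
      rw [map_smul, smul_eq_mul]
      exact mul_nonpos_of_nonneg_of_nonpos (hc0 k) (h k)

/-- a refinement -/
def Ref (s : Smp W p) (S : List (Smp W p)) (F : List (W →ₗ[ℚ] ℚ)) : Prop :=
  (∀ f ∈ F, ∃ x, s.pr x = x ∧ f x ≠ 0) ∧
  (∀ s' ∈ S, (∀ x, s'.pr x = s.pr x) ∧ Comb s s') ∧
  ∀ ξ : W, (∀ f ∈ F, f ξ ≠ 0) → (∀ s' ∈ S, ∀ i, s'.φ i ξ ≠ 0) ∧
    ∀ x, indi (s.In ξ x) = (S.map fun s' => indi (s'.In ξ x)).sum

theorem phi_ne (s : Smp W p) (i : Fin p) : ∃ x, s.pr x = x ∧ s.φ i x ≠ 0 :=
  ⟨s.g i, pr_g s i, by rw [s.dual, if_pos rfl]; exact one_ne_zero⟩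

theorem Ref.refl (s : Smp W p) : Ref s [s] (List.ofFn s.φ) := by
  refine ⟨?_, ?_, ?_⟩
  · intro f hf
    obtain ⟨i, rfl⟩ := (List.mem_ofFn' _ _).1 hf
    exact phi_ne s i
  · intro s' hs'
    rw [List.mem_singleton] at hs'
    subst hs'
    exact ⟨fun x => rfl, Comb.refl _⟩
  · intro ξ hξ
    refine ⟨?_, fun x => by simp⟩
    intro s' hs' i
    rw [List.mem_singleton] at hs'
    subst hs'
    exact hξ _ ((List.mem_ofFn' _ _).2 ⟨i, rfl⟩)

/-- composition of refinements -/
theorem comp_list (P : Smp W p → Prop) (S : List (Smp W p))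
    (h : ∀ s' ∈ S, ∃ S' F', Ref s' S' F' ∧ ∀ s'' ∈ S', P s'') :
    ∃ (S'' : List (Smp W p)) (F'' : List (W →ₗ[ℚ] ℚ)),
      (∀ f ∈ F'', ∃ s' ∈ S, ∃ x, s'.pr x = x ∧ f x ≠ 0) ∧
      (∀ s'' ∈ S'', P s'' ∧ ∃ s' ∈ S, (∀ x, s''.pr x = s'.pr x) ∧ Comb s' s'') ∧
      ∀ ξ : W, (∀ f ∈ F'', f ξ ≠ 0) → (∀ s' ∈ S'', ∀ i, s'.φ i ξ ≠ 0) ∧
        ∀ x, (S.map fun s' => indi (s'.In ξ x)).sum = (S''.map fun s' => indi (s'.In ξ x)).sum := by
  induction S with
  | nil =>
    refine ⟨[], [], ?_, ?_, ?_⟩
    · intro f hf; simp at hf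
    · intro f hf; simp at hf
    · intro ξ _
      refine ⟨?_, fun x => rfl⟩
      intro f hf; simp at hf
  | cons s S ih =>
    obtain ⟨S1, F1, h1, h2, h3⟩ := ih fun s' hs' => h s' (List.mem_cons_of_mem _ hs')
    obtain ⟨S2, F2, ⟨h4, h5, h6⟩, h7⟩ := h s List.mem_cons_self
    refine ⟨S2 ++ S1, F2 ++ F1, ?_, ?_, ?_⟩
    · intro f hf
      rcases List.mem_append.1 hf with hf | hf
      · exact ⟨s, List.mem_cons_self, h4 f hf⟩
      · obtain ⟨s', hs', hx⟩ := h1 f hf
        exact ⟨s', List.mem_cons_of_mem _ hs', hx⟩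
    · intro s'' hs''
      rcases List.mem_append.1 hs'' with hs'' | hs''
      · exact ⟨h7 s'' hs'', s, List.mem_cons_self, h5 s'' hs''⟩
      · obtain ⟨h8, s', hs', hx⟩ := h2 s'' hs''
        exact ⟨h8, s', List.mem_cons_of_mem _ hs', hx⟩
    · intro ξ hξ
      obtain ⟨h8, h9⟩ := h3 ξ fun f hf => hξ f (List.mem_append_right _ hf)
      obtain ⟨h10, h11⟩ := h6 ξ fun f hf => hξ f (List.mem_append_left _ hf)
      refine ⟨?_, ?_⟩
      · intro s' hs'
        rcases List.mem_append.1 hs' with hs' | hs'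
        · exact h10 s' hs'
        · exact h8 s' hs'
      · intro x
        rw [List.map_cons, List.sum_cons, h9 x, h11 x, List.map_append, List.sum_append]

theorem comp {s : Smp W p} {S : List (Smp W p)} {F : List (W →ₗ[ℚ] ℚ)} (hS : Ref s S F)
    (P : Smp W p → Prop) (h : ∀ s' ∈ S, ∃ S' F', Ref s' S' F' ∧ ∀ s'' ∈ S', P s'') :
    ∃ S'' F'', Ref s S'' F'' ∧ ∀ s'' ∈ S'', P s'' := by
  obtain ⟨S'', F'', h1, h2, h3⟩ := comp_list P S h
  refine ⟨S'', F ++ F'', ⟨?_, ?_, ?_⟩, fun s'' hs'' => (h2 s'' hs'').1⟩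
  · intro f hf
    rcases List.mem_append.1 hf with hf | hf
    · exact hS.1 f hf
    · obtain ⟨s', hs', x, hx, hfx⟩ := h1 f hf
      exact ⟨x, by rw [← (hS.2.1 s' hs').1 x, hx], hfx⟩
  · intro s'' hs''
    obtain ⟨-, s', hs', h4, h5⟩ := h2 s'' hs''
    exact ⟨fun x => by rw [h4 x, (hS.2.1 s' hs').1 x], (hS.2.1 s' hs').2.trans h5⟩
  · intro ξ hξ
    obtain ⟨h4, h5⟩ := h3 ξ fun f hf => hξ f (List.mem_append_right _ hf)
    obtain ⟨-, h7⟩ := hS.2.2 ξ fun f hf => hξ f (List.mem_append_left _ hf)
    exact ⟨h4, fun x => by rw [h7 x, h5 x]⟩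

/-! ### One step -/

/-- one of the two cones of a stellar subdivision -/
def sub (s : Smp W p) (i j : Fin p) (hij : i ≠ j) (a b : ℚ) (hb : b ≠ 0) : Smp W p where
  g := Function.update s.g i (b • s.g i + a • s.g j)
  φ := fun k => if k = i then (1 / b) • s.φ i else if k = j then s.φ j - (a / b) • s.φ i else s.φ k
  dual := by
    intro k m
    by_cases hm : m = i
    · subst hm
      rw [Function.update_self]
      by_cases hk : k = m
      · subst hk
        rw [if_pos rfl, if_pos rfl, LinearMap.smul_apply, map_add, map_smul, map_smul, s.dual,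
          s.dual, if_pos rfl, if_neg hij]
        simp only [smul_eq_mul]
        field_simp
        ring
      · rw [if_neg hk, if_neg hk]
        by_cases hkj : k = j
        · subst hkj
          rw [if_pos rfl, LinearMap.sub_apply, LinearMap.smul_apply, map_add, map_add, map_smul,
            map_smul, map_smul, map_smul, s.dual, s.dual, s.dual, s.dual, if_pos rfl, if_pos rfl,
            if_neg hk, if_neg hij]
          simp only [smul_eq_mul]
          field_simp
          ring
        · rw [if_neg hkj, map_add, map_smul, map_smul, s.dual, s.dual, if_neg hk, if_neg hkj]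
          simp
    · rw [Function.update_of_ne hm]
      by_cases hk : k = i
      · subst hk
        rw [if_pos rfl, if_neg (Ne.symm hm), LinearMap.smul_apply, s.dual, if_neg (Ne.symm hm)]
        simp
      · rw [if_neg hk]
        by_cases hkj : k = j
        · subst hkj
          rw [if_pos rfl, LinearMap.sub_apply, LinearMap.smul_apply, s.dual, s.dual,
            if_neg (Ne.symm hm)]
          simp
        · rw [if_neg hkj, s.dual]

section step

variable (s : Smp W p) (i j : Fin p) (hij : i ≠ j) (a b : ℚ)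

theorem sub_pr (hb : b ≠ 0) (x : W) : (sub s i j hij a b hb).pr x = s.pr x := by
  unfold Smp.pr
  have h1 : ∀ k, (sub s i j hij a b hb).φ k x • (sub s i j hij a b hb).g k =
      s.φ k x • s.g k + ((if k = i then (a / b * s.φ i x) • s.g j else 0) -
        (if k = j then (a / b * s.φ i x) • s.g j else 0)) := by
    intro k
    change (if k = i then (1 / b) • s.φ i else if k = j then s.φ j - (a / b) • s.φ i else s.φ k) x •
      Function.update s.g i (b • s.g i + a • s.g j) k = _
    by_cases hk : k = i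
    · subst hk
      rw [if_pos rfl, Function.update_self, if_pos rfl, if_neg hij, sub_zero,
        LinearMap.smul_apply, smul_add, smul_smul, smul_smul, smul_eq_mul]
      congr 2
      · field_simp
      · ring
    · rw [if_neg hk, Function.update_of_ne hk, if_neg hk, zero_sub]
      by_cases hkj : k = j
      · subst hkj
        rw [if_pos rfl, if_pos rfl, LinearMap.sub_apply, LinearMap.smul_apply, sub_smul,
          smul_eq_mul, sub_eq_add_neg]
      · rw [if_neg hkj, if_neg hkj, neg_zero, add_zero]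
  rw [Finset.sum_congr rfl fun k _ => h1 k, Finset.sum_add_distrib, Finset.sum_sub_distrib,
    Finset.sum_ite_eq', Finset.sum_ite_eq', if_pos (Finset.mem_univ _), if_pos (Finset.mem_univ _),
    sub_self, add_zero]

theorem sub_comb (ha : 0 ≤ a) (hb : 0 < b) : Comb s (sub s i j hij a b hb.ne') := by
  intro k
  by_cases hk : k = i
  · subst hk
    refine ⟨fun m => (if m = k then b else 0) + (if m = j then a else 0), ?_, ?_⟩
    · intro m
      dsimp only
      refine add_nonneg ?_ ?_
      · split_ifs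
        · exact hb.le
        · exact le_rfl
      · split_ifs
        · exact ha
        · exact le_rfl
    · change Function.update s.g k (b • s.g k + a • s.g j) k = _
      rw [Function.update_self]
      simp only [add_smul, ite_smul, zero_smul]
      rw [Finset.sum_add_distrib, Finset.sum_ite_eq', Finset.sum_ite_eq',
        if_pos (Finset.mem_univ _), if_pos (Finset.mem_univ _)]
  · obtain ⟨c, hc, hck⟩ := Comb.refl s k
    refine ⟨c, hc, ?_⟩
    rw [← hck]
    exact Function.update_of_ne hk _ _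

theorem sub_In (ha : 0 < a) (hb : 0 < b) (ξ x : W) :
    (sub s i j hij a b hb.ne').In ξ x ↔ s.In ξ x ∧
      (0 ≤ (b • s.φ j - a • s.φ i) x ∧
        ((b • s.φ j - a • s.φ i) ξ < 0 → 0 < (b • s.φ j - a • s.φ i) x)) := by
  have e1 : ∀ y, (sub s i j hij a b hb.ne').φ i y = 1 / b * s.φ i y := by
    intro y
    change (if i = i then (1 / b) • s.φ i else _) y = _
    rw [if_pos rfl]
    rfl
  have e2 : ∀ y, (sub s i j hij a b hb.ne').φ j y = 1 / b * (b • s.φ j - a • s.φ i) y := by
    intro y
    change (if j = i then (1 / b) • s.φ i else if j = j then s.φ j - (a / b) • s.φ i else s.φ j) y = _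
    rw [if_neg (Ne.symm hij), if_pos rfl, LinearMap.sub_apply, LinearMap.smul_apply,
      LinearMap.sub_apply, LinearMap.smul_apply, LinearMap.smul_apply]
    simp only [smul_eq_mul]
    field_simp
  have e3 : ∀ k, k ≠ i → k ≠ j → (sub s i j hij a b hb.ne').φ k = s.φ k := by
    intro k hk hkj
    change (if k = i then (1 / b) • s.φ i else if k = j then s.φ j - (a / b) • s.φ i else s.φ k) = _
    rw [if_neg hk, if_neg hkj]
  have hb1 : 0 < 1 / b := div_pos one_pos hb
  obtain ⟨δ, hδ⟩ : ∃ δ : W →ₗ[ℚ] ℚ, δ = b • s.φ j - a • s.φ i := ⟨_, rfl⟩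
  have hδy : ∀ y, b * s.φ j y = δ y + a * s.φ i y := by
    intro y
    rw [hδ, LinearMap.sub_apply, LinearMap.smul_apply, LinearMap.smul_apply]
    simp only [smul_eq_mul]
    ring
  rw [← hδ] at e2 ⊢
  constructor
  · intro h
    have hi := h i
    have hj := h j
    rw [e1, e1] at hi
    rw [e2, e2] at hj
    have hi1 : 0 ≤ s.φ i x := nonneg_of_mul_nonneg_right hi.1 hb1
    have hi2 : s.φ i ξ < 0 → 0 < s.φ i x := fun h0 =>
      (pos_iff_pos_of_mul_pos (hi.2 (mul_neg_of_pos_of_neg hb1 h0))).1 hb1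
    have hj1 : 0 ≤ δ x := nonneg_of_mul_nonneg_right hj.1 hb1
    have hj2 : δ ξ < 0 → 0 < δ x := fun h0 =>
      (pos_iff_pos_of_mul_pos (hj.2 (mul_neg_of_pos_of_neg hb1 h0))).1 hb1
    refine ⟨?_, hj1, hj2⟩
    intro k
    by_cases hk : k = i
    · subst hk
      exact ⟨hi1, hi2⟩
    · by_cases hkj : k = j
      · subst hkj
        have h1 := hδy x
        have h2 := hδy ξ
        constructor
        · have h3 : 0 ≤ b * s.φ k x := by
            rw [h1]
            exact add_nonneg hj1 (mul_nonneg ha.le hi1)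
          exact nonneg_of_mul_nonneg_right h3 hb
        · intro h0
          have h3 : b * s.φ k ξ < 0 := mul_neg_of_pos_of_neg hb h0
          rw [h2] at h3
          have h4 : 0 < b * s.φ k x := by
            rw [h1]
            by_cases h5 : δ ξ < 0
            · exact add_pos_of_pos_of_nonneg (hj2 h5) (mul_nonneg ha.le hi1)
            · have h6 : s.φ i ξ < 0 := by
                by_contra h7
                push Not at h5 h7
                have := mul_nonneg ha.le h7
                linarith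
              exact add_pos_of_nonneg_of_pos hj1 (mul_pos ha (hi2 h6))
          exact (pos_iff_pos_of_mul_pos h4).1 hb
      · have h1 := h k
        rw [e3 k hk hkj] at h1
        exact h1
  · rintro ⟨h, h1, h2⟩ k
    by_cases hk : k = i
    · subst hk
      rw [e1, e1]
      refine ⟨mul_nonneg hb1.le (h k).1, fun h0 => mul_pos hb1 ((h k).2 ?_)⟩
      by_contra h3
      push Not at h3
      exact absurd h0 (not_lt.2 (mul_nonneg hb1.le h3))
    · by_cases hkj : k = j
      · subst hkj
        rw [e2, e2]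
        refine ⟨mul_nonneg hb1.le h1, fun h0 => mul_pos hb1 (h2 ?_)⟩
        by_contra h3
        push Not at h3
        exact absurd h0 (not_lt.2 (mul_nonneg hb1.le h3))
      · rw [e3 k hk hkj]
        exact h k

end step

theorem indi_split {P P1 P2 D1 D2 : Prop} (h1 : P1 ↔ P ∧ D1) (h2 : P2 ↔ P ∧ D2)
    (h3 : D1 ∨ D2) (h4 : ¬ (D1 ∧ D2)) : indi P = indi P1 + indi P2 := by
  unfold indi
  by_cases hP : P
  · rw [if_pos hP]
    by_cases hD : D1
    · have h5 : ¬ D2 := fun h => h4 ⟨hD, h⟩
      rw [if_pos (h1.2 ⟨hP, hD⟩), if_neg fun h => h5 (h2.1 h).2]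
      norm_num
    · have h5 : D2 := h3.resolve_left hD
      rw [if_neg fun h => hD (h1.1 h).2, if_pos (h2.2 ⟨hP, h5⟩)]
      norm_num
  · rw [if_neg hP, if_neg fun h => hP (h1.1 h).1, if_neg fun h => hP (h2.1 h).1]
    norm_num

theorem step_ref (s : Smp W p) (i j : Fin p) (hij : i ≠ j) (a b : ℚ) (ha : 0 < a) (hb : 0 < b) :
    ∃ F, Ref s [sub s i j hij a b hb.ne', sub s j i hij.symm b a ha.ne'] F := by
  refine ⟨[b • s.φ j - a • s.φ i] ++ (List.ofFn (sub s i j hij a b hb.ne').φ ++
    List.ofFn (sub s j i hij.symm b a ha.ne').φ), ?_, ?_, ?_⟩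
  · intro f hf
    rcases List.mem_append.1 hf with hf | hf
    · rw [List.mem_singleton] at hf
      subst hf
      refine ⟨s.g j, pr_g s j, ?_⟩
      rw [LinearMap.sub_apply, LinearMap.smul_apply, LinearMap.smul_apply, s.dual, s.dual,
        if_pos rfl, if_neg hij]
      simpa using hb.ne'
    · rcases List.mem_append.1 hf with hf | hf
      · obtain ⟨k, rfl⟩ := (List.mem_ofFn' _ _).1 hf
        obtain ⟨x, hx, hfx⟩ := phi_ne (sub s i j hij a b hb.ne') k
        exact ⟨x, by rw [← sub_pr s i j hij a b hb.ne' x, hx], hfx⟩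
      · obtain ⟨k, rfl⟩ := (List.mem_ofFn' _ _).1 hf
        obtain ⟨x, hx, hfx⟩ := phi_ne (sub s j i hij.symm b a ha.ne') k
        exact ⟨x, by rw [← sub_pr s j i hij.symm b a ha.ne' x, hx], hfx⟩
  · intro s' hs'
    rcases List.mem_cons.1 hs' with rfl | hs'
    · exact ⟨sub_pr s i j hij a b hb.ne', sub_comb s i j hij a b ha.le hb⟩
    · rw [List.mem_singleton] at hs'
      subst hs'
      exact ⟨sub_pr s j i hij.symm b a ha.ne', sub_comb s j i hij.symm b a hb.le ha⟩
  · intro ξ hξ
    constructor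
    · intro s' hs' k
      rcases List.mem_cons.1 hs' with rfl | hs'
      · exact hξ _ (List.mem_append_right _ (List.mem_append_left _ ((List.mem_ofFn' _ _).2 ⟨k, rfl⟩)))
      · rw [List.mem_singleton] at hs'
        subst hs'
        exact hξ _ (List.mem_append_right _ (List.mem_append_right _
          ((List.mem_ofFn' _ _).2 ⟨k, rfl⟩)))
    · intro x
      have hδ : (b • s.φ j - a • s.φ i) ξ ≠ 0 :=
        hξ _ (List.mem_append_left _ (List.mem_singleton.2 rfl))
      have hn : ∀ y, (a • s.φ i - b • s.φ j) y = -((b • s.φ j - a • s.φ i) y) := by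
        intro y
        rw [LinearMap.sub_apply, LinearMap.sub_apply]
        ring
      rw [List.map_cons, List.map_cons, List.map_nil, List.sum_cons, List.sum_cons, List.sum_nil,
        add_zero]
      have h2 := sub_In s j i hij.symm b a hb ha ξ x
      rw [hn, hn] at h2
      refine indi_split (sub_In s i j hij a b ha hb ξ x) h2 ?_ ?_
      · rcases lt_trichotomy ((b • s.φ j - a • s.φ i) x) 0 with h | h | h
        · right
          exact ⟨by linarith, fun _ => by linarith⟩
        · rcases lt_or_gt_of_ne hδ with h' | h'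
          · right
            exact ⟨by linarith, fun h'' => by linarith⟩
          · left
            exact ⟨by linarith, fun h'' => by linarith⟩
        · left
          exact ⟨h.le, fun _ => h⟩
      · rintro ⟨⟨h3, h4⟩, h5, h6⟩
        have h7 : (b • s.φ j - a • s.φ i) x = 0 := le_antisymm (by linarith) h3
        rcases lt_or_gt_of_ne hδ with h' | h'
        · have := h4 h'
          linarith
        · have := h6 (by linarith)
          linarith

/-! ### One form -/

theorem one_form (l : W →ₗ[ℚ] ℚ) (n : ℕ) : ∀ s : Smp W p,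
    (Finset.univ.filter fun k => l (s.g k) ≠ 0).card ≤ n →
    ∃ S F, Ref s S F ∧ ∀ s' ∈ S, SD l s' := by
  induction n with
  | zero =>
    intro s hs
    refine ⟨[s], _, Ref.refl s, ?_⟩
    intro s' hs'
    rw [List.mem_singleton] at hs'
    subst hs'
    left
    intro i
    rw [Nat.le_zero, Finset.card_eq_zero, Finset.filter_eq_empty_iff] at hs
    have := hs (Finset.mem_univ i)
    push Not at this
    rw [this]
  | succ n ih =>
    intro s hs
    by_cases hsd : SD l s
    · refine ⟨[s], _, Ref.refl s, ?_⟩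
      intro s' hs'
      rw [List.mem_singleton] at hs'
      subst hs'
      exact hsd
    · unfold SD at hsd
      push Not at hsd
      obtain ⟨⟨j, hj⟩, ⟨i, hi⟩⟩ := hsd
      have hij : i ≠ j := by
        rintro rfl
        linarith
      have hb : 0 < -l (s.g j) := by linarith
      obtain ⟨F, hF⟩ := step_ref s i j hij (l (s.g i)) (-l (s.g j)) hi hb
      refine comp hF (SD l) ?_
      have hz : l ((-l (s.g j)) • s.g i + l (s.g i) • s.g j) = 0 := by
        rw [map_add, map_smul, map_smul, smul_eq_mul, smul_eq_mul]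
        ring
      have hz' : l (l (s.g i) • s.g j + (-l (s.g j)) • s.g i) = 0 := by
        rw [add_comm]
        exact hz
      have key : ∀ (m : Fin p) (G : W), l G = 0 → l (s.g m) ≠ 0 → ∀ s' : Smp W p,
          s'.g = Function.update s.g m G →
          (Finset.univ.filter fun k => l (s'.g k) ≠ 0).card ≤ n := by
        intro m G hG hm s' hs'
        have h1 : (Finset.univ.filter fun k => l (s'.g k) ≠ 0).card <
            (Finset.univ.filter fun k => l (s.g k) ≠ 0).card := by
          apply Finset.card_lt_card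
          rw [Finset.ssubset_iff_of_subset]
          · refine ⟨m, Finset.mem_filter.2 ⟨Finset.mem_univ _, hm⟩, ?_⟩
            intro h2
            apply (Finset.mem_filter.1 h2).2
            rw [hs', Function.update_self, hG]
          · intro k hk
            rw [Finset.mem_filter] at hk ⊢
            refine ⟨Finset.mem_univ _, ?_⟩
            have h2 := hk.2
            rw [hs'] at h2
            by_cases hkm : k = m
            · rw [hkm]
              exact hm
            · rw [Function.update_of_ne hkm] at h2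
              exact h2
        omega
      intro s' hs'
      apply ih
      rcases List.mem_cons.1 hs' with rfl | hs'
      · exact key i _ hz hi.ne' _ rfl
      · rw [List.mem_singleton] at hs'
        subst hs'
        exact key j _ hz' hj.ne _ rfl

theorem many_forms (L : List (W →ₗ[ℚ] ℚ)) : ∀ s : Smp W p,
    ∃ S F, Ref s S F ∧ ∀ s' ∈ S, ∀ l ∈ L, SD l s' := by
  induction L with
  | nil =>
    intro s
    exact ⟨[s], _, Ref.refl s, fun s' _ l hl => absurd hl List.not_mem_nil⟩
  | cons l L ih =>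
    intro s
    obtain ⟨S, F, h1, h2⟩ := one_form l _ s le_rfl
    refine comp h1 (fun s' => ∀ l' ∈ l :: L, SD l' s') ?_
    intro s' hs'
    obtain ⟨S', F', h3, h4⟩ := ih s'
    refine ⟨S', F', h3, ?_⟩
    intro s'' hs'' l' hl'
    rcases List.mem_cons.1 hl' with rfl | hl'
    · exact (h2 s' hs').comb (h3.2.1 s'' hs'').2
    · exact h4 s'' hs'' l' hl'

theorem t_CUT : S_CUT := by
  intro W _ _ p s L
  obtain ⟨S, F, ⟨h1, h2, h3⟩, h4⟩ := many_forms L s
  exact ⟨S, F, h1, fun s' hs' => ⟨(h2 s' hs').1, fun l hl => h4 s' hs' l hl⟩, h3⟩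

end Pool.Agent.Y259.HX
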